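import Pool.Agent.Work.MP_426531_ag.Hedge.Division
import Pool.Agent.Work.MP_426531_ag.Hedge.Maximal
import Pool.Agent.Work.MP_426531_ag.Hedge.Gen

/-!
Irrational subfields of transcendence degree one of the cyclic algebra `(u, v)_n` over `ℂ(u, v)`: for every `n ≥ 2`
and every primitive `n`-th root of unity `ζ` there is one, and it lies in a maximal subfield containing `ℂ(u, v)`.
-/

set_option autoImplicit false

namespace Pool.Agent.Results.MP_426531_ag.FullAnswer

/-- The field `F = ℂ(u, v)` of rational functions in two independent variables over `ℂ`. -/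
abbrev F : Type := FractionRing (MvPolynomial (Fin 2) ℂ)

/-- The element `u` of `F`. -/
noncomputable def u : F := algebraMap (MvPolynomial (Fin 2) ℂ) F (MvPolynomial.X 0)

/-- The element `v` of `F`. -/
noncomputable def v : F := algebraMap (MvPolynomial (Fin 2) ℂ) F (MvPolynomial.X 1)

/-- The first generator `x` of the free algebra `F⟨x, y⟩`. -/
noncomputable def x : FreeAlgebra F (Fin 2) := FreeAlgebra.ι F 0

/-- The second generator `y` of the free algebra `F⟨x, y⟩`. -/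
noncomputable def y : FreeAlgebra F (Fin 2) := FreeAlgebra.ι F 1

/-- The relations `x ^ n = u`, `y ^ n = v` and `x y = ζ y x`. -/
inductive Rel (n : ℕ) (ζ : ℂ) : FreeAlgebra F (Fin 2) → FreeAlgebra F (Fin 2) → Prop
  | x_pow : Rel n ζ (x ^ n) (algebraMap F _ u)
  | y_pow : Rel n ζ (y ^ n) (algebraMap F _ v)
  | comm : Rel n ζ (x * y) (algebraMap ℂ _ ζ * (y * x))

/-- The cyclic algebra `A = (u, v)_n = F⟨x, y⟩ / (x ^ n - u, y ^ n - v, x y - ζ y x)`. -/
abbrev A (n : ℕ) (ζ : ℂ) : Type := RingQuot (Rel n ζ)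

theorem rel_eq (n : ℕ) (ζ : ℂ) :
    Rel n ζ = Pool.Agent.Work.MP_426531_ag.relq Pool.Agent.Work.MP_426531_ag.uF
      Pool.Agent.Work.MP_426531_ag.vF n ζ := by
  funext a b
  apply propext
  constructor
  · rintro (_ | _ | _)
    · exact Or.inl ⟨rfl, rfl⟩
    · exact Or.inr (Or.inl ⟨rfl, rfl⟩)
    · exact Or.inr (Or.inr ⟨rfl, rfl⟩)
  · rintro (⟨rfl, rfl⟩ | ⟨rfl, rfl⟩ | ⟨rfl, rfl⟩)
    · exact Rel.x_pow
    · exact Rel.y_pow
    · exact Rel.comm

/-- **Question Q1, answered affirmatively for every `n ≥ 2` and every primitive `n`-th root of unity `ζ`.**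

The algebra `A = (u, v)_n` is a division algebra with centre `F` and dimension `n ^ 2` over `F` (first three clauses; they
say that the presentation above is the right one). There are a field `K` containing `ℂ` and a homomorphism
`f : K → A` of `ℂ`-algebras, injective, such that `K` (that is, the subfield `f(K) ⊇ ℂ` of `A`) has transcendence
degree `1` over `ℂ` and is not isomorphic to `ℂ(t)`; `K` is the function field of the elliptic curve
`q ^ 2 = p ^ 3 + a p` with `a ≠ 0`. Geometric form: `f(K)` is contained in a subfield `M` of `A` which contains `F` and is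
maximal, even among all commutative subrings of `A`. -/
theorem result (n : ℕ) (hn : 2 ≤ n) (ζ : ℂ) (hζ : IsPrimitiveRoot ζ n) :
    (∀ z : A n ζ, z ≠ 0 → ∃ w, z * w = 1 ∧ w * z = 1) ∧
    Subalgebra.center F (A n ζ) = ⊥ ∧
    Module.finrank F (A n ζ) = n ^ 2 ∧
    ∃ (K : Type) (_ : Field K) (_ : Algebra ℂ K) (f : K →ₐ[ℂ] A n ζ),
      Function.Injective f ∧ Algebra.trdeg ℂ K = 1 ∧ IsEmpty (K ≃ₐ[ℂ] RatFunc ℂ) ∧
      (∃ (a : ℂ) (p q : K), a ≠ 0 ∧ q ^ 2 = p ^ 3 + algebraMap ℂ K a * p ∧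
        IntermediateField.adjoin ℂ {p, q} = ⊤) ∧
      ∃ M : Subalgebra F (A n ζ), IsField M ∧ (∀ z, f z ∈ M) ∧
        ∀ S : Subring (A n ζ), (∀ a ∈ S, ∀ b ∈ S, a * b = b * a) → M.toSubring ≤ S →
          S = M.toSubring := by
  have hn0 : n ≠ 0 := by omega
  have hζ0 : ζ ≠ 0 := hζ.ne_zero hn0
  have hζ1 : ζ ≠ 1 := hζ.ne_one (by omega)
  have ha : (ζ⁻¹ - 1) ^ 4 / (ζ⁻¹) ^ 2 ≠ 0 := by
    apply div_ne_zero
    · apply pow_ne_zero
      rw [sub_ne_zero]
      intro h
      exact hζ1 (inv_eq_one.mp h)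
    · exact pow_ne_zero _ (inv_ne_zero hζ0)
  unfold A
  rw [rel_eq]
  obtain ⟨f, hf⟩ := Pool.Agent.Work.MP_426531_ag.main_embedding n hn ζ hζ
  refine ⟨fun z hz => Pool.Agent.Work.MP_426531_ag.AA_division hn0 hζ z hz,
    Pool.Agent.Work.MP_426531_ag.AA_center hn0 hζ, Pool.Agent.Work.MP_426531_ag.AA_finrank hn0 hζ,
    Pool.Agent.Work.MP_426531_ag.KE _, inferInstance, inferInstance, f, hf,
    Pool.Agent.Work.MP_426531_ag.KE_trdeg _, Pool.Agent.Work.MP_426531_ag.KE_not_rational _ ha,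
    ⟨_, Pool.Agent.Work.MP_426531_ag.KEx _, Pool.Agent.Work.MP_426531_ag.KEy _, ha,
      Pool.Agent.Work.MP_426531_ag.KE_rel _,
      Pool.Agent.Work.MP_426531_ag.adjoin_KE _⟩, ?_⟩
  · have h1 := Pool.Agent.Work.MP_426531_ag.AA_nontrivial hn0 hζ
    have h2 := Pool.Agent.Work.MP_426531_ag.AA_finite
      (u := Pool.Agent.Work.MP_426531_ag.uF) (v := Pool.Agent.Work.MP_426531_ag.vF)
      (n := n) (ζ := ζ) hn0 Pool.Agent.Work.MP_426531_ag.uF_ne_zero
      Pool.Agent.Work.MP_426531_ag.vF_ne_zero hζ0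
    obtain ⟨M, hM1, hM2, hM3⟩ := Pool.Agent.Work.MP_426531_ag.exists_maximal_subfield (F := F)
      (Pool.Agent.Work.MP_426531_ag.AA_mul_ne_zero hn0 hζ) (Set.range f) (by
        rintro _ ⟨a, rfl⟩ _ ⟨b, rfl⟩
        rw [← map_mul, ← map_mul, mul_comm])
    exact ⟨M, hM1, fun z => hM2 ⟨z, rfl⟩, hM3⟩

end Pool.Agent.Results.MP_426531_ag.FullAnswer
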